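import Pool.Agent.helper36.BP.SpecD

/-! # Row FTB of project bp: one block by Fourier inversion -/

set_option autoImplicit false

open Finset
open Pool.Agent.FI Pool.Agent.HK
open Pool.Agent.CH (nit rgh ll2)
open Pool.Agent.SK (tr0 Th)

noncomputable section

namespace Pool.Agent.BP

private theorem FTB_prod (r : ℕ) (t v : ℝ) (m : Fin r → ℕ) (hm : ∀ k, 1 ≤ m k) :
    Complex.exp (((t * (Real.log ((∏ k, m k : ℕ) : ℝ) - v) : ℝ) : ℂ) * Complex.I) =
      Complex.exp (((-(t * v) : ℝ) : ℂ) * Complex.I) * ∏ k, nit t (m k) := by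
  have h1 : Real.log ((∏ k, m k : ℕ) : ℝ) = ∑ k, Real.log (m k) := by
    rw [Nat.cast_prod, Real.log_prod]
    intro k _
    have := hm k
    positivity
  unfold nit
  rw [← Complex.exp_sum, ← Complex.exp_add, h1]
  congr 1
  rw [← Finset.sum_mul, ← add_mul]
  congr 1
  push_cast
  rw [← Finset.mul_sum]
  ring

theorem FTB (hTHF : THF_stmt) : FTB_stmt := by
  intro r u e v δ hδ
  obtain ⟨hint, hinv⟩ := hTHF δ hδ
  obtain ⟨M, hM⟩ : ∃ M, M = Fintype.piFinset (fun k : Fin r => Ico (2 ^ e k) (2 ^ (e k + 1))) := ⟨_, rfl⟩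
  have hI : ∀ x : ℝ, MeasureTheory.Integrable
      (fun t => Th δ t * Complex.exp (((t * (x - v) : ℝ) : ℂ) * Complex.I)) := by
    intro x
    apply hint.mono
    · apply hint.aestronglyMeasurable.mul
      apply Continuous.aestronglyMeasurable
      fun_prop
    · apply Filter.Eventually.of_forall
      intro t
      rw [norm_mul, Complex.norm_exp_ofReal_mul_I, mul_one]
  have h1 : blk r u e (fun n => ((tl v δ n : ℝ) : ℂ)) =
      1 / (2 * Real.pi) * ∫ t : ℝ, ∑ m ∈ M, (∏ k, u k (m k)) *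
        (Th δ t * Complex.exp (((t * (Real.log ((∏ k, m k : ℕ) : ℝ) - v) : ℝ) : ℂ) * Complex.I)) := by
    rw [MeasureTheory.integral_finset_sum _ (fun m _ => (hI _).const_mul _), Finset.mul_sum]
    unfold blk
    rw [← hM]
    apply Finset.sum_congr rfl
    intro m _
    unfold tl
    beta_reduce
    rw [hinv v, MeasureTheory.integral_const_mul]
    ring
  have h2 : ∀ t : ℝ, ∑ m ∈ M, (∏ k, u k (m k)) *
        (Th δ t * Complex.exp (((t * (Real.log ((∏ k, m k : ℕ) : ℝ) - v) : ℝ) : ℂ) * Complex.I)) =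
      Th δ t * Complex.exp (((-(t * v) : ℝ) : ℂ) * Complex.I) *
        ∏ k, ∑ n ∈ Ico (2 ^ e k) (2 ^ (e k + 1)), u k n * nit t n := by
    intro t
    rw [Finset.prod_univ_sum, ← hM, Finset.mul_sum]
    apply Finset.sum_congr rfl
    intro m hm
    rw [hM, Fintype.mem_piFinset] at hm
    rw [FTB_prod r t v m (fun k => ?_), Finset.prod_mul_distrib]
    · ring
    · have := (Finset.mem_Ico.1 (hm k)).1
      exact le_trans Nat.one_le_two_pow this
  have h3 : ∀ t : ℝ, ‖∑ m ∈ M, (∏ k, u k (m k)) *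
        (Th δ t * Complex.exp (((t * (Real.log ((∏ k, m k : ℕ) : ℝ) - v) : ℝ) : ℂ) * Complex.I))‖ =
      ‖Th δ t‖ * ∏ k, ‖∑ n ∈ Ico (2 ^ e k) (2 ^ (e k + 1)), u k n * nit t n‖ := by
    intro t
    rw [h2 t, norm_mul, norm_mul, Complex.norm_exp_ofReal_mul_I, mul_one, norm_prod]
  rw [h1, norm_mul]
  have h4 : ‖(1 / (2 * (Real.pi : ℂ)))‖ ≤ 1 := by
    have h5 : ‖(2 : ℂ)‖ = 2 := by simp
    have := Real.pi_gt_three
    rw [norm_div, norm_one, norm_mul, Complex.norm_real, Real.norm_of_nonneg Real.pi_pos.le, h5,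
      div_le_one (by linarith)]
    linarith
  have h6 := MeasureTheory.norm_integral_le_integral_norm (μ := MeasureTheory.volume)
    (fun t : ℝ => ∑ m ∈ M, (∏ k, u k (m k)) *
        (Th δ t * Complex.exp (((t * (Real.log ((∏ k, m k : ℕ) : ℝ) - v) : ℝ) : ℂ) * Complex.I)))
  simp_rw [h3] at h6
  calc _ ≤ 1 * ‖∫ t : ℝ, ∑ m ∈ M, (∏ k, u k (m k)) *
        (Th δ t * Complex.exp (((t * (Real.log ((∏ k, m k : ℕ) : ℝ) - v) : ℝ) : ℂ) * Complex.I))‖ :=
        mul_le_mul_of_nonneg_right h4 (norm_nonneg _)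
    _ ≤ _ := by rw [one_mul]; exact h6

end Pool.Agent.BP
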